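import Pool.Agent.N486.AF.Fin
import Pool.Agent.R647.FC.Nef

set_option autoImplicit false

/-!
# A dimension-free approximate F-conjecture for all divisors on `M̄_{0,n}`

The marks are `0, …, p-1` (the type `Fin p`) and `∞`, so `n = p + 1`.  The boundary divisors of
`M̄_{0,n}` are the `δ_S`, `S` a set of marks different from `∞` with `2 ≤ |S| < p` (`δ_S`
separates `S` from the other marks).  The F-curve of type `(A, B, C)`, for disjoint nonempty sets
`A, B, C` of marks different from `∞`, is the one of the partition `A, B, C`, (the rest, with `∞`).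

The log canonical divisor `K + Δ` of `M̄_{0,n}` is ample and has degree one on all the F-curves.

Theorem.  Let the degrees of `D` on the F-curves lie in the interval `[a, b]`, and let
`e = a - 2472 (b - a)`.  Then `D - e (K + Δ)` is linearly equivalent to an effective sum of boundary
divisors, and it is nef.  The constant does not depend on `n`.  So, for all `n`:

* a divisor whose degrees on the F-curves are nonnegative and at most `b` becomes nef after adding
  `2472 b (K + Δ)`;
* a divisor with positive degrees on the F-curves, all within a factor `1 + 1 / 2472` of each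
  other, is nef, and if they are strictly within this factor it is ample.

(The starting result `PinchedDegrees` has `3 √n` in the place of `2472`.)

Curves.  An irreducible curve in `M̄_{0,n}` meets the interior of a unique stratum, and its class is
the sum of its projections to the factors `M̄_{0,q+1}` of the stratum.  Such a factor belongs to
disjoint nonempty sets `B 0, …, B (q-1)` of marks different from `∞` (the marks behind the nodes and
marks of the component of the stable curve; the last one leads to `∞`).  On the factor the
projection of the curve has the intersection numbers `m S ≥ 0` with the boundary divisors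
`δ_S`, `2 ≤ |S| < q`, the degree `d` on `ψ_∞`, and it meets the interior.  The divisor `δ_T` of
`M̄_{0,n}` restricts to `δ_S` if `T` is the union of the `B i`, `i ∈ S`, to `-ψ_i` if `T = B i`, and
to `-ψ_∞` if `T` is the union of all `B i`.

Proof.  Restricted to a stratum, `D` becomes a symmetric function `f` on the subsets of the set `V`
of the marks of the factor.  The linear equivalences add to `f` the cut functions
`X ↦ ∑ G i j`, `i ∈ X`, `j ∉ X`.  For each mark `j` the function
`A ↦ f (A ∪ {j}) - f (A) - f ({j})` of the sets `A` without `j` is additive up to `b - a`.  By the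
theorem of Kalton and Roberts on nearly additive set functions (proved here with the constant `164`,
with concentrators) it differs from an additive function by at most `164 (b - a)`, whatever the size
of the set.  The symmetrised matrix of these additive functions, corrected so that the function
vanishes on the singletons, gives `G`: the row sums are almost right because `f` takes the same
values on complementary sets.
-/

namespace Pool.Agent.N486.Shelf.DimensionFreePinching

open Finset

variable {p q : ℕ}

/-- `c` is a family of coefficients: it stands for the divisor `∑ c S • δ_S`, the sum over the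
`S` with `2 ≤ |S| < p`; it vanishes on the sets that give no boundary divisor. -/
def IsDivisor (c : Finset (Fin p) → ℝ) : Prop :=
  (∀ S : Finset (Fin p), S.card ≤ 1 → c S = 0) ∧ c univ = 0

/-- The degree of `∑ c S • δ_S` on the F-curve of type `(A, B, C)`. -/
def fdegree (c : Finset (Fin p) → ℝ) (A B C : Finset (Fin p)) : ℝ :=
  c (A ∪ B) + c (A ∪ C) + c (B ∪ C) - c A - c B - c C - c (A ∪ B ∪ C)

/-- Linear equivalence: the difference is a combination, with coefficients `w x y` whose sum is
zero (take `S = univ`), of the sums `∑ δ_S` over the `S` containing `x` and `y` (these sums are all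
linearly equivalent to `ψ_∞`, and their differences generate the relations, by Keel's theorem). -/
def LinEquiv (c u : Finset (Fin p) → ℝ) : Prop :=
  ∃ w : Fin p → Fin p → ℝ, ∀ S : Finset (Fin p),
    c S - u S = ∑ y ∈ S, ∑ x ∈ S.filter (fun x : Fin p => x < y), w x y

/-- The log canonical divisor `K + Δ`: the coefficient of `δ_S` is `j (n - j) / (n - 1) - 1`, where
`j = |S|` and `n = p + 1`. -/
noncomputable def logCanonical (S : Finset (Fin p)) : ℝ :=
  if S = ∅ then 0 else ((S.card : ℝ) - 1) * ((p : ℝ) - S.card) / p

/-- The `B i` are disjoint nonempty sets of marks different from `∞`. -/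
def IsStratum (B : Fin q → Finset (Fin p)) : Prop :=
  (∀ i, (B i).Nonempty) ∧ ∀ i j, i ≠ j → Disjoint (B i) (B j)

/-- `m S` are the intersection numbers with `δ_S` of a curve in `M̄_{0,q+1}` that is not contained
in the boundary, and `d` is its degree on `ψ_∞`: all `m S ≥ 0`, and for all marks `i ≠ j` different
from `∞` we have `ψ_∞ = ∑ δ_S`, the sum over the `S` containing `i` and `j`. -/
def IsCurve (m : Finset (Fin q) → ℕ) (d : ℕ) : Prop :=
  (∀ S : Finset (Fin q), S.card ≤ 1 → m S = 0) ∧ m univ = 0 ∧
    ∀ i j : Fin q, i ≠ j →
      ∑ S ∈ univ.filter (fun S : Finset (Fin q) => i ∈ S ∧ j ∈ S), m S = d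

/-- The degree of `∑ c S • δ_S` on the curve with the numbers `m`, `d` in the factor `M̄_{0,q+1}` of
a stratum given by the `B i`; the degree of `ψ_i` on the curve is `∑ m S - d`, the sum over the `S`
containing `i`. -/
def degree (c : Finset (Fin p) → ℝ) (B : Fin q → Finset (Fin p)) (m : Finset (Fin q) → ℕ)
    (d : ℕ) : ℝ :=
  ∑ S ∈ univ.filter (fun S : Finset (Fin q) => 2 ≤ S.card ∧ S.card < q), c (S.biUnion B) * m S -
    ∑ i, c (B i) * (∑ S ∈ univ.filter (fun S : Finset (Fin q) => i ∈ S), (m S : ℝ) - d) -
    c (univ.biUnion B) * d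

theorem logCanonical_divisor (hp : 1 ≤ p) : IsDivisor (logCanonical (p := p)) := by
  have hp' : (p : ℝ) ≠ 0 := by
    have : (1 : ℝ) ≤ p := by exact_mod_cast hp
    linarith
  constructor
  · intro S hS
    unfold logCanonical
    split_ifs with h
    · rfl
    · have : S.card = 1 := by
        have := card_pos.2 (nonempty_iff_ne_empty.2 h)
        omega
      rw [this]
      simp
  · unfold logCanonical
    rw [card_univ, Fintype.card_fin]
    simp

theorem logCanonical_fdegree {A B C : Finset (Fin p)} (hA : A.Nonempty) (hB : B.Nonempty)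
    (hC : C.Nonempty) (h1 : Disjoint A B) (h2 : Disjoint A C) (h3 : Disjoint B C) :
    fdegree logCanonical A B C = 1 := by
  have hp : 1 ≤ p := by
    have e1 := card_pos.2 hA
    have e2 := card_le_univ A
    rw [Fintype.card_fin] at e2
    omega
  have hp' : (p : ℝ) ≠ 0 := by
    have : (1 : ℝ) ≤ p := by exact_mod_cast hp
    linarith
  have hn : ∀ X : Finset (Fin p), X.Nonempty →
      logCanonical X = ((X.card : ℝ) - 1) * ((p : ℝ) - X.card) / p := by
    intro X hX
    unfold logCanonical
    rw [if_neg (nonempty_iff_ne_empty.1 hX)]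
  unfold fdegree
  rw [hn _ hA, hn _ hB, hn _ hC, hn _ (hA.mono subset_union_left),
    hn _ (hA.mono subset_union_left), hn _ (hB.mono subset_union_left),
    hn _ (hA.mono (subset_union_left.trans subset_union_left)),
    card_union_of_disjoint (disjoint_union_left.2 ⟨h2, h3⟩), card_union_of_disjoint h1,
    card_union_of_disjoint h2, card_union_of_disjoint h3]
  push_cast
  field_simp
  ring

theorem size {B : Fin q → Finset (Fin p)} (h : IsStratum B) : q ≤ p := by
  have e1 : ∑ i : Fin q, (B i).card ≤ p := by
    rw [← card_biUnion fun i _ j _ hij => h.2 i j hij]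
    have := card_le_univ (univ.biUnion B)
    rwa [Fintype.card_fin] at this
  have e2 : ∑ _i : Fin q, 1 ≤ ∑ i : Fin q, (B i).card :=
    sum_le_sum fun i _ => card_pos.2 (h.1 i)
  rw [sum_const, card_univ, Fintype.card_fin, smul_eq_mul, mul_one] at e2
  omega

theorem log_degree {B : Fin q → Finset (Fin p)} {m : Finset (Fin q) → ℕ} {d : ℕ} (hq : 3 ≤ q)
    (hB : IsStratum B) (hm : IsCurve m d) : degree logCanonical B m d =
      ∑ S : Finset (Fin q), (m S : ℝ) * ((S.card : ℝ) - 1) - d * ((q : ℝ) - 1) := by
  have hp := size hB
  have hd := logCanonical_divisor (p := p) (by omega)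
  have h1 := R647.AF.nef_stratum (c := logCanonical) (a := 1) (b := 1) (hd.1 ∅ (by simp)) le_rfl
    (fun A B C hA hB hC k1 k2 k3 => by
      have := logCanonical_fdegree hA hB hC k1 k2 k3
      unfold fdegree at this
      unfold R647.AF.T
      constructor <;> linarith) hq hB.1 hB.2 hm.1 hm.2.1 hm.2.2
  have h2 := R647.AF.nef_stratum (c := fun S => - logCanonical S) (a := -1) (b := -1)
    (by rw [hd.1 ∅ (by simp), neg_zero]) le_rfl
    (fun A B C hA hB hC k1 k2 k3 => by
      have := logCanonical_fdegree hA hB hC k1 k2 k3
      unfold fdegree at this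
      unfold R647.AF.T
      constructor <;> linarith) hq hB.1 hB.2 hm.1 hm.2.1 hm.2.2
  simp only [neg_mul, sum_neg_distrib] at h2
  unfold degree
  simp only [sub_self, mul_zero, sub_zero, one_mul] at h1 h2
  apply le_antisymm
  · linarith
  · linarith

/-- Let `D = ∑ c S • δ_S` be a divisor on `M̄_{0,p+1}` with real coefficients, and let its degrees on
all the F-curves lie in `[a, b]`.  Put `e = a - 2472 (b - a)`.

1. `D` is linearly equivalent to a sum of boundary divisors in which the coefficient of every `δ_S`
   is at least `e` times the coefficient of `K + Δ`.  So `D - e (K + Δ)` is linearly equivalent to an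
   effective sum of boundary divisors.
2. On every curve, in every stratum, the degree of `D` is at least `e` times the degree of `K + Δ`.
   So `D - e (K + Δ)` is nef.
3. The divisor `K + Δ` has degree one on the F-curves, and it has positive degree on all the nonzero
   classes of curves in the factors of the strata.
4. If `2472 (b - a) ≤ a` then `D` is nef, and if `2472 (b - a) < a` then it has positive degree on all
   the nonzero classes of curves in the factors of the strata. -/
theorem result (p : ℕ) (c : Finset (Fin p) → ℝ) (hc : IsDivisor c) (a b : ℝ)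
    (h : ∀ A B C : Finset (Fin p), A.Nonempty → B.Nonempty → C.Nonempty → Disjoint A B →
      Disjoint A C → Disjoint B C → a ≤ fdegree c A B C ∧ fdegree c A B C ≤ b) :
    (∃ u : Finset (Fin p) → ℝ, IsDivisor u ∧ LinEquiv c u ∧
      ∀ S : Finset (Fin p), 2 ≤ S.card → S.card < p →
        (a - 2472 * (b - a)) * logCanonical S ≤ u S) ∧
    (∀ (q : ℕ) (B : Fin q → Finset (Fin p)) (m : Finset (Fin q) → ℕ) (d : ℕ), 3 ≤ q →
      IsStratum B → IsCurve m d →
        (a - 2472 * (b - a)) * degree logCanonical B m d ≤ degree c B m d) ∧
    (1 ≤ p → IsDivisor (logCanonical (p := p))) ∧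
    (∀ A B C : Finset (Fin p), A.Nonempty → B.Nonempty → C.Nonempty → Disjoint A B →
      Disjoint A C → Disjoint B C → fdegree logCanonical A B C = 1) ∧
    (∀ (q : ℕ) (B : Fin q → Finset (Fin p)) (m : Finset (Fin q) → ℕ) (d : ℕ), 3 ≤ q →
      IsStratum B → IsCurve m d → 0 ≤ degree logCanonical B m d ∧
        ((∃ S, m S ≠ 0) → 0 < degree logCanonical B m d)) ∧
    (2472 * (b - a) ≤ a → ∀ (q : ℕ) (B : Fin q → Finset (Fin p)) (m : Finset (Fin q) → ℕ)
      (d : ℕ), 3 ≤ q → IsStratum B → IsCurve m d → 0 ≤ degree c B m d ∧
        (2472 * (b - a) < a → (∃ S, m S ≠ 0) → 0 < degree c B m d)) := by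
  have hab : 3 ≤ p → a ≤ b := by
    intro hp
    have hne : ∀ i j : ℕ, ∀ (hi : i < p) (hj : j < p), i ≠ j →
        Disjoint ({⟨i, hi⟩} : Finset (Fin p)) {⟨j, hj⟩} := by
      intro i j hi hj hij
      rw [disjoint_singleton, Ne, Fin.mk.injEq]
      exact hij
    have h1 := h {⟨0, by omega⟩} {⟨1, by omega⟩} {⟨2, by omega⟩} (singleton_nonempty _)
      (singleton_nonempty _) (singleton_nonempty _) (hne _ _ _ _ (by omega))
      (hne _ _ _ _ (by omega)) (hne _ _ _ _ (by omega))
    exact h1.1.trans h1.2
  have hT : ∀ A B C : Finset (Fin p), A.Nonempty → B.Nonempty → C.Nonempty → Disjoint A B →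
      Disjoint A C → Disjoint B C → a ≤ R647.AF.T c A B C ∧ R647.AF.T c A B C ≤ b := h
  have hnef : ∀ (q : ℕ) (B : Fin q → Finset (Fin p)) (m : Finset (Fin q) → ℕ) (d : ℕ), 3 ≤ q →
      IsStratum B → IsCurve m d →
        (a - 2472 * (b - a)) * degree logCanonical B m d ≤ degree c B m d := by
    intro q B m d hq hB hm
    have hp := size hB
    rw [log_degree hq hB hm]
    exact N486.AF.nef_stratum (hc.1 ∅ (by simp)) (hab (by omega)) hT hq hB.1 hB.2 hm.1 hm.2.1
      hm.2.2
  have hlog : ∀ (q : ℕ) (B : Fin q → Finset (Fin p)) (m : Finset (Fin q) → ℕ) (d : ℕ), 3 ≤ q →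
      IsStratum B → IsCurve m d → 0 ≤ degree logCanonical B m d ∧
        ((∃ S, m S ≠ 0) → 0 < degree logCanonical B m d) := by
    intro q B m d hq hB hm
    rw [log_degree hq hB hm]
    exact ⟨R647.AF.log_nonneg (by omega) hm.1 hm.2.2, fun hS => R647.FC.lc_pos hm hS⟩
  refine ⟨?_, hnef, fun hp => logCanonical_divisor hp, fun A B C hA hB hC h1 h2 h3 =>
    logCanonical_fdegree hA hB hC h1 h2 h3, hlog, fun he q B m d hq hB hm => ?_⟩
  · by_cases hp : 3 ≤ p
    · obtain ⟨u, h1, h2, h3, w, hw⟩ := N486.AF.eff hc.1 (hab hp) hp hT
      refine ⟨u, ⟨h1, h2⟩, ⟨w, hw⟩, fun S hS hS' => ?_⟩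
      have h4 := h3 S hS hS'
      unfold logCanonical
      rw [if_neg (by
        rintro rfl
        simp at hS)]
      exact h4
    · exact ⟨c, hc, ⟨fun _ _ => 0, fun S => by simp⟩, fun S hS hS' => by omega⟩
  · have h1 := hnef q B m d hq hB hm
    obtain ⟨h2, h3⟩ := hlog q B m d hq hB hm
    refine ⟨(mul_nonneg (by linarith) h2).trans h1, fun he' hS => ?_⟩
    exact (mul_pos (by linarith) (h3 hS)).trans_le h1

end Pool.Agent.N486.Shelf.DimensionFreePinching
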